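import Mathlib
import Pool.Agent.H86.CMLib.Y114.RM.Stm3
import Pool.Agent.H86.CMLib.H204R3.SP.Descent

/-!
# The operators attached to additive functions of eigenvalues kill the tensors
-/

set_option autoImplicit false

namespace Pool.Agent.Y86.RM

open Module TensorProduct Pool.Agent.TH118.SG Pool.Agent.Y114.RM

section nat

variable {K : Type} [Field K] [CharZero K] [IsAlgClosed K] {E₁ E₂ : Type} [AddCommGroup E₁]
  [Module K E₁] [FiniteDimensional K E₁] [AddCommGroup E₂] [Module K E₂]

omit [CharZero K] [IsAlgClosed K] [FiniteDimensional K E₁] in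
theorem map_gen {f₁ : End K E₁} {f₂ : End K E₂} {A : E₁ →ₗ[K] E₂} (h : ∀ x, A (f₁ x) = f₂ (A x))
    {β : K} {x : E₁} (hx : x ∈ f₁.maxGenEigenspace β) : A x ∈ f₂.maxGenEigenspace β := by
  obtain ⟨n, hn⟩ := mem_gen.1 hx
  refine mem_gen.2 ⟨n, ?_⟩
  have key : ∀ (n : ℕ) (x : E₁), ((f₂ - algebraMap K (End K E₂) β) ^ n) (A x) =
      A (((f₁ - algebraMap K (End K E₁) β) ^ n) x) := by
    intro n
    induction n with
    | zero => intro x; rfl
    | succ n ih =>
      intro x
      rw [pow_succ, pow_succ, Module.End.mul_apply, Module.End.mul_apply, ← ih]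
      congr 1
      rw [LinearMap.sub_apply, LinearMap.sub_apply, map_sub, h, Module.algebraMap_end_apply,
        Module.algebraMap_end_apply, map_smul]
  rw [key, hn, map_zero]

theorem op_nat {f₁ Y₁ : End K E₁} {f₂ Y₂ : End K E₂} {A : E₁ →ₗ[K] E₂}
    (h : ∀ x, A (f₁ x) = f₂ (A x)) {θ : Additive Kˣ →+ K} (h1 : IsOp θ f₁ Y₁)
    (h2 : IsOp θ f₂ Y₂) (x : E₁) : A (Y₁ x) = Y₂ (A x) := by
  have hx : x ∈ ⨆ β, f₁.maxGenEigenspace β := by
    rw [Module.End.iSup_maxGenEigenspace_eq_top f₁]
    exact Submodule.mem_top
  induction hx using Submodule.iSup_induction' with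
  | mem β x hx => rw [h1 β x hx, map_smul, h2 β _ (map_gen h hx)]
  | zero => simp only [map_zero]
  | add x y _ _ hx hy => rw [map_add, map_add, map_add, map_add, hx, hy]

end nat

section base

variable {k : Type} [Field k] {C : Type} [Field C] [Algebra k C] {V W : Type} [AddCommGroup V]
  [Module k V] [AddCommGroup W] [Module k W]

theorem pv_nat (π : C →ₗ[k] k) (A : V →ₗ[k] W) (z : C ⊗[k] V) :
    pv π (A.baseChange C z) = A (pv π z) := by
  induction z using TensorProduct.induction_on with
  | zero => simp only [map_zero]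
  | tmul c v => rw [LinearMap.baseChange_tmul, pv_tmul, pv_tmul, map_smul]
  | add x y hx hy => rw [map_add, map_add, map_add, map_add, hx, hy]

theorem bc_pow (A : End k V) (M : ℕ) (x : V) :
    ((A.baseChange C : End C (C ⊗[k] V)) ^ M) (1 ⊗ₜ[k] x) = 1 ⊗ₜ[k] ((A ^ M) x) := by
  induction M generalizing x with
  | zero => rfl
  | succ M ih =>
    rw [pow_succ, pow_succ, Module.End.mul_apply, Module.End.mul_apply, LinearMap.baseChange_tmul,
      ih]

theorem bc_inj {g g' : End k V} (h : g' * g = 1) :
    Function.Injective (g.baseChange C : End C (C ⊗[k] V)) := by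
  have h1 : ∀ z : C ⊗[k] V, g'.baseChange C (g.baseChange C z) = z := by
    intro z
    induction z using TensorProduct.induction_on with
    | zero => simp only [map_zero]
    | tmul c v =>
      rw [LinearMap.baseChange_tmul, LinearMap.baseChange_tmul, ← Module.End.mul_apply, h,
        Module.End.one_apply]
    | add x y hx hy => rw [map_add, map_add, hx, hy]
  intro x y hxy
  have hxy' : g.baseChange C x = g.baseChange C y := hxy
  rw [← h1 x, ← h1 y, hxy']

theorem grp_pow (g g' : End k V) (M : ℕ) : (grp g g') ^ M = grp (g ^ M) (g' ^ M) := by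
  induction M with
  | zero =>
    apply LinearMap.ext
    rintro ⟨x, ξ⟩
    rfl
  | succ M ih =>
    rw [pow_succ, ih]
    apply LinearMap.ext
    rintro ⟨x, ξ⟩
    rw [Module.End.mul_apply]
    unfold grp
    refine Prod.ext ?_ ?_
    · change (g ^ M) (g x) = (g ^ (M + 1)) x
      rw [pow_succ, Module.End.mul_apply]
    · change (g' ^ M).dualMap (g'.dualMap ξ) = (g' ^ (M + 1)).dualMap ξ
      apply LinearMap.ext
      intro y
      change ξ (g' ((g' ^ M) y)) = ξ ((g' ^ (M + 1)) y)
      rw [pow_succ', Module.End.mul_apply]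

variable (k V) in
/-- the evaluation tensor -/
def ev2 : MultilinearMap k (fun _ : Fin 2 => V × Dual k V) k where
  toFun v := (v 1).2 (v 0).1
  map_update_add' := by
    intro inst v i x y
    obtain rfl : inst = instDecidableEqFin 2 := Subsingleton.elim _ _
    fin_cases i
    · simp [Function.update]
    · simp [Function.update]
  map_update_smul' := by
    intro inst v i c x
    obtain rfl : inst = instDecidableEqFin 2 := Subsingleton.elim _ _
    fin_cases i
    · simp [Function.update]
    · simp [Function.update]

theorem ev2_apply (v : Fin 2 → V × Dual k V) : ev2 k V v = (v 1).2 (v 0).1 := rfl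

end base

section main

variable {k : Type} [Field k] [CharZero k] {C : Type} [Field C] [CharZero C] [IsAlgClosed C]
  [Algebra k C] {U : Type} [AddCommGroup U] [Module k U] [FiniteDimensional k U]

omit [CharZero k] [IsAlgClosed C] [CharZero C] [FiniteDimensional k U] in
theorem pi_bcm {m : ℕ} {ν : Type} [Fintype ν] [DecidableEq ν] (b : Basis ν k U)
    (φ : MultilinearMap k (fun _ : Fin m => U) k) (π : C →ₗ[k] k) (u : Fin m → U) (l : Fin m)
    (z : C ⊗[k] U) :
    π (Pool.Agent.H204R3.SP.bcm (Ω := C) b φ
      (Function.update (fun l => (1 : C) ⊗ₜ[k] u l) l z)) =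
      φ (Function.update u l (pv π z)) := by
  induction z using TensorProduct.induction_on with
  | zero =>
    rw [MultilinearMap.map_update_zero, map_zero, map_zero, MultilinearMap.map_update_zero]
  | tmul c x =>
    have h1 : (c ⊗ₜ[k] x : C ⊗[k] U) = c • ((1 : C) ⊗ₜ[k] x) := by
      rw [TensorProduct.smul_tmul', smul_eq_mul, mul_one]
    have h2 : Function.update (fun l => (1 : C) ⊗ₜ[k] u l) l ((1 : C) ⊗ₜ[k] x) =
        fun l' => (1 : C) ⊗ₜ[k] (Function.update u l x l') := by
      funext l'
      by_cases h : l' = l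
      · subst h
        rw [Function.update_self, Function.update_self]
      · rw [Function.update_of_ne h, Function.update_of_ne h]
    rw [pv_tmul, MultilinearMap.map_update_smul, h1, MultilinearMap.map_update_smul, h2,
      Pool.Agent.H204R3.SP.bcm_one, smul_eq_mul, smul_eq_mul, mul_comm c,
      ← Algebra.smul_def, map_smul, smul_eq_mul, mul_comm]
  | add x y hx hy =>
    rw [MultilinearMap.map_update_add, map_add, map_add, MultilinearMap.map_update_add, hx, hy]

/-- the operator kills invariant forms -/
theorem claimA (G₀ : End k U) (hG : Function.Injective (G₀.baseChange C : End C (C ⊗[k] U)))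
    (θ : Additive Cˣ →+ C) (Z : End C (C ⊗[k] U)) (hZ : IsOp θ (G₀.baseChange C) Z) {M : ℕ}
    (hM : 0 < M) (π : C →ₗ[k] k) {m : ℕ} (φ : MultilinearMap k (fun _ : Fin m => U) k)
    (hφ : ∀ v, φ (fun l => (G₀ ^ M) (v l)) = φ v) (v : Fin m → U) :
    ∑ l, φ (Function.update v l (pM π Z (v l))) = 0 := by
  classical
  let b := Module.finBasis k U
  let Φ := Pool.Agent.H204R3.SP.bcm (Ω := C) b φ
  have hinv : Φ.compLinearMap (fun _ => ((G₀.baseChange C : End C (C ⊗[k] U)) ^ M)) = Φ := by
    refine Basis.ext_multilinear (fun _ => b.baseChange C) fun J => ?_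
    rw [MultilinearMap.compLinearMap_apply]
    have h1 : ∀ l, ((G₀.baseChange C : End C (C ⊗[k] U)) ^ M) (b.baseChange C (J l)) =
        (1 : C) ⊗ₜ[k] ((G₀ ^ M) (b (J l))) := by
      intro l
      rw [Basis.baseChange_apply, bc_pow]
    simp only [h1]
    have h2 : (fun l => b.baseChange C (J l)) = fun l => (1 : C) ⊗ₜ[k] b (J l) := by
      funext l
      rw [Basis.baseChange_apply]
    rw [h2]
    change Pool.Agent.H204R3.SP.bcm (Ω := C) b φ _ = Pool.Agent.H204R3.SP.bcm (Ω := C) b φ _
    rw [Pool.Agent.H204R3.SP.bcm_one, Pool.Agent.H204R3.SP.bcm_one, hφ]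
  have hh : ∀ v, Φ (fun j => ((G₀.baseChange C : End C (C ⊗[k] U)) ^ M) (v j)) =
      ((1 : End C C) ^ M) (Φ v) := by
    intro v
    rw [one_pow, Module.End.one_apply]
    have h1 := congrArg (fun F : MultilinearMap C (fun _ : Fin m => C ⊗[k] U) C => F v) hinv
    exact h1
  have hY' : ∀ β, ∀ x ∈ (1 : End C C).maxGenEigenspace β, (0 : End C C) x = ext0 θ β • x := by
    intro β x hx
    by_cases h1 : β = 1
    · rw [h1, ext0_one, zero_smul, LinearMap.zero_apply]
    · obtain ⟨n, hn⟩ := mem_gen.1 hx
      have h2 : ∀ n : ℕ, ((1 - algebraMap C (End C C) β) ^ n) x = (1 - β) ^ n * x := by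
        intro n
        induction n with
        | zero => rw [pow_zero, pow_zero, one_mul, Module.End.one_apply]
        | succ n ih =>
          rw [pow_succ', Module.End.mul_apply, ih, LinearMap.sub_apply,
            Module.algebraMap_end_apply, Module.End.one_apply, smul_eq_mul]
          ring
      rw [h2] at hn
      have h3 : x = 0 := by
        rcases mul_eq_zero.1 hn with h | h
        · exact absurd h (pow_ne_zero n (sub_ne_zero.2 (Ne.symm h1)))
        · exact h
      rw [h3, map_zero, smul_zero]
  have key := deriv_op θ (G₀.baseChange C : End C (C ⊗[k] U)) hG (1 : End C C) hZ hY' hM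
    (h := Φ) hh (fun l => (1 : C) ⊗ₜ[k] v l)
  have key2 := congrArg π key
  rw [LinearMap.zero_apply, map_zero, map_sum] at key2
  rw [← key2]
  refine Finset.sum_congr rfl fun l _ => ?_
  rw [pM_apply, ← pi_bcm b φ π v l]

end main

theorem tor (hres : S_RES) : S_TOR := by
  intro k _ _ C _ _ _ _ V _ _ _ g g' hgg' hg'g θ Y hY M hM π
  classical
  refine ⟨?_, ?_⟩
  · -- the tensors
    have hG₀ : grp g' g * grp g g' = 1 := by
      apply LinearMap.ext
      rintro ⟨x, ξ⟩
      rw [Module.End.mul_apply]
      unfold grp
      refine Prod.ext ?_ ?_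
      · change g' (g x) = x
        rw [← Module.End.mul_apply, hg'g, Module.End.one_apply]
      · change g.dualMap (g'.dualMap ξ) = ξ
        apply LinearMap.ext
        intro y
        change ξ (g' (g y)) = ξ y
        rw [← Module.End.mul_apply, hg'g, Module.End.one_apply]
    have hG : Function.Injective ((grp g g').baseChange C : End C (C ⊗[k] (V × Dual k V))) :=
      bc_inj hG₀
    obtain ⟨Z, hZ⟩ := exists_op ((grp g g').baseChange C : End C (C ⊗[k] (V × Dual k V)))
      (ext0 θ)
    obtain ⟨Y', hY'⟩ := exists_op ((g'.dualMap).baseChange C : End C (C ⊗[k] (Dual k V)))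
      (ext0 θ)
    have hinl : ∀ x, (LinearMap.inl k V (Dual k V)).baseChange C (g.baseChange C x) =
        (grp g g').baseChange C ((LinearMap.inl k V (Dual k V)).baseChange C x) := by
      intro x
      induction x using TensorProduct.induction_on with
      | zero => simp only [map_zero]
      | tmul c v =>
        simp only [LinearMap.baseChange_tmul]
        congr 1
      | add x y hx hy => simp only [map_add, hx, hy]
    have hinr : ∀ x, (LinearMap.inr k V (Dual k V)).baseChange C ((g'.dualMap).baseChange C x) =
        (grp g g').baseChange C ((LinearMap.inr k V (Dual k V)).baseChange C x) := by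
      intro x
      induction x using TensorProduct.induction_on with
      | zero => simp only [map_zero]
      | tmul c v =>
        simp only [LinearMap.baseChange_tmul]
        congr 1
        unfold grp
        refine Prod.ext ?_ rfl
        change (0 : V) = g 0
        rw [map_zero]
      | add x y hx hy => simp only [map_add, hx, hy]
    have e1 : ∀ x : V, pM π Z (x, 0) = (pM π Y x, 0) := by
      intro x
      have h1 := op_nat hinl hY hZ ((1 : C) ⊗ₜ[k] x)
      have h2 := congrArg (pv π) h1
      rw [pv_nat, LinearMap.baseChange_tmul] at h2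
      exact h2.symm
    have e2 : ∀ ξ : Dual k V, pM π Z (0, ξ) = (0, pM π Y' ξ) := by
      intro ξ
      have h1 := op_nat hinr hY' hZ ((1 : C) ⊗ₜ[k] ξ)
      have h2 := congrArg (pv π) h1
      rw [pv_nat, LinearMap.baseChange_tmul] at h2
      exact h2.symm
    have hev : ∀ v : Fin 2 → V × Dual k V,
        ev2 k V (fun l => ((grp g g') ^ M) (v l)) = ev2 k V v := by
      intro v
      rw [ev2_apply, ev2_apply, grp_pow]
      change (v 1).2 ((g' ^ M) ((g ^ M) (v 0).1)) = (v 1).2 (v 0).1
      have h3 : g' ^ M * g ^ M = 1 := by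
        have hc : Commute g' g := by
          rw [Commute, SemiconjBy, hgg', hg'g]
        rw [← hc.mul_pow, hg'g, one_pow]
      rw [← Module.End.mul_apply, h3, Module.End.one_apply]
    have e3 : ∀ (x : V) (ξ : Dual k V), (pM π Y' ξ) x = - ξ (pM π Y x) := by
      intro x ξ
      have h1 := claimA (grp g g') hG θ Z hZ hM π (ev2 k V) hev ![(x, 0), (0, ξ)]
      rw [Fin.sum_univ_two] at h1
      simp only [ev2_apply] at h1
      have h2 : (Function.update ![((x, 0) : V × Dual k V), (0, ξ)] 0
          (pM π Z (![((x, 0) : V × Dual k V), (0, ξ)] 0))) 1 = (0, ξ) := by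
        rw [Function.update_of_ne (by decide)]
        rfl
      have h3 : (Function.update ![((x, 0) : V × Dual k V), (0, ξ)] 0
          (pM π Z (![((x, 0) : V × Dual k V), (0, ξ)] 0))) 0 = (pM π Y x, 0) := by
        rw [Function.update_self]
        exact e1 x
      have h4 : (Function.update ![((x, 0) : V × Dual k V), (0, ξ)] 1
          (pM π Z (![((x, 0) : V × Dual k V), (0, ξ)] 1))) 1 = (0, pM π Y' ξ) := by
        rw [Function.update_self]
        exact e2 ξ
      have h5 : (Function.update ![((x, 0) : V × Dual k V), (0, ξ)] 1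
          (pM π Z (![((x, 0) : V × Dual k V), (0, ξ)] 1))) 0 = (x, 0) := by
        rw [Function.update_of_ne (by decide)]
        rfl
      rw [h2, h3, h4, h5] at h1
      exact eq_neg_of_add_eq_zero_right h1
    have e4 : pM π Z = lie (pM π Y) := by
      apply LinearMap.ext
      rintro ⟨x, ξ⟩
      have h1 : ((x, ξ) : V × Dual k V) = (x, 0) + (0, ξ) := by simp
      rw [h1, map_add, e1, e2, ← h1]
      unfold lie
      refine Prod.ext ?_ ?_
      · change pM π Y x + 0 = pM π Y x
        rw [add_zero]
      · apply LinearMap.ext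
        intro y
        change ((0 : Dual k V) + pM π Y' ξ) y = (-(pM π Y).dualMap) ξ y
        rw [zero_add, e3]
        rfl
    intro m φ hφ v
    rw [← e4]
    refine claimA (grp g g') hG θ Z hZ hM π φ (fun v => ?_) v
    rw [grp_pow]
    exact hφ v
  · intro W hW x hx
    have hinj : Function.Injective (g.baseChange C : End C (C ⊗[k] V)) := bc_inj hg'g
    have h1 := (hres C (C ⊗[k] V) θ (g.baseChange C) Y hinj hY (W.baseChange C)).1 M hM (by
      intro z hz
      rw [Submodule.baseChange_eq_span] at hz ⊢
      induction hz using Submodule.span_induction with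
      | mem z hz =>
        obtain ⟨w, hw, rfl⟩ := hz
        refine Submodule.subset_span ⟨(g ^ M) w, hW w hw, ?_⟩
        rw [TensorProduct.mk_apply, TensorProduct.mk_apply, bc_pow]
      | zero => rw [map_zero]; exact Submodule.zero_mem _
      | add a b _ _ ha hb => rw [map_add]; exact Submodule.add_mem _ ha hb
      | smul c a _ ha => rw [map_smul]; exact Submodule.smul_mem _ _ ha)
    have h2 : ∀ z ∈ W.baseChange C, ∀ c : C, pv π (c • z) ∈ W := by
      intro z hz
      rw [Submodule.baseChange_eq_span] at hz
      induction hz using Submodule.span_induction with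
      | mem z hz =>
        obtain ⟨w, hw, rfl⟩ := hz
        intro c
        rw [TensorProduct.mk_apply, TensorProduct.smul_tmul', pv_tmul]
        exact Submodule.smul_mem _ _ hw
      | zero => intro c; rw [smul_zero, map_zero]; exact Submodule.zero_mem _
      | add a b _ _ ha hb => intro c; rw [smul_add, map_add]; exact Submodule.add_mem _ (ha c) (hb c)
      | smul c' a _ ha => intro c; rw [smul_smul]; exact ha _
    have h3 : (1 : C) ⊗ₜ[k] x ∈ W.baseChange C := by
      rw [Submodule.baseChange_eq_span]
      exact Submodule.subset_span ⟨x, hx, rfl⟩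
    have h4 := h2 _ (h1 _ h3) 1
    rw [one_smul] at h4
    exact h4

end Pool.Agent.Y86.RM
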